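import Pool.Agent.Helper77.Tau.Main
import Pool.Agent.Helper77.Tau.Ellis

/-!
# The `τ`-topology on the ideal groups of an NIP group is Hausdorff

Let `T` be an NIP theory, `M` a model of `T` of any cardinality, `N` an elementary extension of `M`
which is `|M|⁺`-saturated, and `G` a group which is definable in `M` without parameters. Then the
product `p * q` is a well defined operation on the space `S_G^fs(N, M)` of the complete types over
`N` which are concentrated on `G` and finitely satisfiable in `M`, and for every minimal left ideal
`ℳ` and every idempotent `u` of `ℳ` the `τ`-topology on `u ℳ` is Hausdorff.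

Idea of the proof. The sets `{k ∈ u ℳ | g * k ∈ W for some g ∈ G(M) with g ∈ W₁}`, for `W₁` a
neighbourhood of `u` and `W` a neighbourhood of `x`, form a base of `τ`-neighbourhoods of `x`. So if
`x ≠ y` can not be separated then for all neighbourhoods `W₁` of `u`, `W` of `x` and `W'` of `y`
there are `k ∈ u ℳ` and `g, h ∈ G(M)` in `W₁` such that `g * k ∈ W` and `h * k ∈ W'`. Let the formula
`φ` be in `x` and not in `y`. Given elements `γ_A` of `G(M)`, for `A ⊆ {1, ..., n}`, and points
`k_1, ..., k_n` of `u ℳ` such that `φ ∈ γ_A * x`, `φ ∉ γ_A * y`, and `φ ∈ γ_A * k_j` if and only if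
`j ∈ A`, one takes `g`, `h` and `k` for sufficiently small `W₁`, `W`, `W'`; as `u * k_j = k_j`,
`u * x = x` and `u * y = y`, the elements `γ_A g`, `γ_A h` and the points `k_1, ..., k_n, k` are such
a configuration for `n + 1`. This contradicts NIP. No countability or metrisability is used.
-/

set_option autoImplicit false

universe u v w

open FirstOrder FirstOrder.Language Topology

namespace Pool.Agent.Results.MP_984980_lc.TauHausdorff

open Pool.Agent.Helper77.Tau

/-- Let `T` be an NIP theory, `M` a model of `T`, `N` an `|M|⁺`-saturated elementary extension of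
`M`, and `G` a group which is `0`-definable in `M`. The product of types is a well defined operation
`op` on `S_G^fs(N, M)`, and for every minimal left ideal `ℳ` and every idempotent `u` of `ℳ` there
is a topology `t` on `u ℳ` whose closed sets are exactly the sets `A` with `cl_τ A = A` (the
`τ`-topology), and `t` is Hausdorff. -/
theorem result {L : FirstOrder.Language.{u, v}} (T : L.Theory) (hT : IsNIP.{u, v, w} T)
    {M N : Type w} [Nonempty M] [L.Structure M] [L.Structure N] [M ⊨ T] (i : M ↪ₑ[L] N)
    (hN : IsSaturated L (Order.succ (Cardinal.mk M)) N) (G : DefGroup L M) :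
    ∃ op : FS G i → FS G i → FS G i, (∀ p q r, IsProd p q r ↔ r = op p q) ∧
      ∀ ℳ, IsMinimalLeftIdeal op ℳ → ∀ u ∈ ℳ, op u u = u →
        ∃ t : TopologicalSpace (idealGroup op u ℳ),
          (∀ A : Set (idealGroup op u ℳ), IsClosed[t] A ↔
            clTau op u (idealGroup op u ℳ) (Subtype.val '' A) = Subtype.val '' A) ∧
          @T2Space (idealGroup op u ℳ) t := by
  have hex : ∀ p q : FS G i, ∃ r, IsProd p q r := fun p q => exists_prod p q
  choose op hop' using hex
  have hop : ∀ p q r, IsProd p q r ↔ r = op p q := by
    intro p q r
    constructor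
    · exact fun h => prod_unique hN h (hop' p q)
    · rintro rfl
      exact hop' p q
  refine ⟨op, hop, fun ℳ _ u _ huu => main hN hT hop u (idealGroup op u ℳ) ?_ huu⟩
  rintro k ⟨m, _, rfl⟩
  rw [← op_assoc hN hop, huu]

end Pool.Agent.Results.MP_984980_lc.TauHausdorff
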